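import Mathlib

set_option autoImplicit false

namespace Pool.Agent.Hhelper10.FB

/-- The elementary abelian 2-group of rank `r`, written additively. -/
abbrev EE (r : ℕ) : Type := Fin r → ZMod 2

/-- The distinguished vectors: the basis vectors and the all-one vector. -/
def dd (r : ℕ) : Option (Fin r) → EE r
  | some k => Pi.single k 1
  | none => fun _ => 1

/-- A coordinate on which `dd r i` is `1`. -/
def cc (r : ℕ) (i0 : Fin r) : Option (Fin r) → Fin r
  | some k => k
  | none => i0

theorem dd_cc (r : ℕ) (i0 : Fin r) (i : Option (Fin r)) : dd r i (cc r i0 i) = 1 := by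
  cases i <;> simp [dd, cc]

/-- The finite 2-group used as counterexample building block. -/
@[ext]
structure LB (r : ℕ) (i0 : Fin r) : Type where
  u : Option (Fin r) → EE r → ZMod 2
  z : Option (Fin r) → ZMod 2 → ZMod 2
  x : EE r

variable {r : ℕ} {i0 : Fin r}

/-- The bilinear map used in the cocycle. -/
def bb (r : ℕ) (i0 : Fin r) (i : Option (Fin r)) (a b : EE r → ZMod 2) (j : ZMod 2) : ZMod 2 :=
  ∑ g : EE r, if g (cc r i0 i) = j then a g * b (g + dd r i) else 0

theorem bb_add_left (i : Option (Fin r)) (a a' b : EE r → ZMod 2) (j : ZMod 2) :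
    bb r i0 i (fun g => a g + a' g) b j = bb r i0 i a b j + bb r i0 i a' b j := by
  unfold bb
  rw [← Finset.sum_add_distrib]
  refine Finset.sum_congr rfl fun g _ => ?_
  split_ifs <;> ring

theorem bb_add_right (i : Option (Fin r)) (a b b' : EE r → ZMod 2) (j : ZMod 2) :
    bb r i0 i a (fun g => b g + b' g) j = bb r i0 i a b j + bb r i0 i a b' j := by
  unfold bb
  rw [← Finset.sum_add_distrib]
  refine Finset.sum_congr rfl fun g _ => ?_
  split_ifs <;> ring

theorem bb_shift (i : Option (Fin r)) (a b : EE r → ZMod 2) (x : EE r) (j : ZMod 2) :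
    bb r i0 i a b (j + x (cc r i0 i)) =
      bb r i0 i (fun g => a (g + x)) (fun g => b (g + x)) j := by
  unfold bb
  rw [← Equiv.sum_comp (Equiv.addRight x)]
  refine Finset.sum_congr rfl fun g _ => ?_
  simp only [Equiv.coe_addRight, Pi.add_apply, add_left_inj]
  congr 2
  rw [add_right_comm]

theorem bb_zero_left (i : Option (Fin r)) (b : EE r → ZMod 2) (j : ZMod 2) :
    bb r i0 i (fun _ => 0) b j = 0 := by
  unfold bb; simp

theorem bb_zero_right (i : Option (Fin r)) (b : EE r → ZMod 2) (j : ZMod 2) :
    bb r i0 i b (fun _ => 0) j = 0 := by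
  unfold bb; simp

instance : Mul (LB r i0) where
  mul a b :=
    { u := fun i g => a.u i g + b.u i (g + a.x)
      z := fun i j => a.z i j + b.z i (j + a.x (cc r i0 i)) +
        bb r i0 i (a.u i) (fun g => b.u i (g + a.x)) j
      x := a.x + b.x }

instance : One (LB r i0) where
  one :=
    { u := fun _ _ => 0
      z := fun _ _ => 0
      x := 0 }

instance : Inv (LB r i0) where
  inv a :=
    { u := fun i g => a.u i (g + a.x)
      z := fun i j => a.z i (j + a.x (cc r i0 i)) +
        bb r i0 i (fun g => a.u i (g + a.x)) (fun g => a.u i (g + a.x)) j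
      x := a.x }

theorem mul_u (a b : LB r i0) (i : Option (Fin r)) :
    (a * b).u i = fun g => a.u i g + b.u i (g + a.x) := rfl

theorem mul_z (a b : LB r i0) (i : Option (Fin r)) (j : ZMod 2) :
    (a * b).z i j = a.z i j + b.z i (j + a.x (cc r i0 i)) +
        bb r i0 i (a.u i) (fun g => b.u i (g + a.x)) j := rfl

theorem mul_x (a b : LB r i0) : (a * b).x = a.x + b.x := rfl

theorem one_u (i : Option (Fin r)) : (1 : LB r i0).u i = fun _ => 0 := rfl
theorem one_z (i : Option (Fin r)) (j : ZMod 2) : (1 : LB r i0).z i j = 0 := rfl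
theorem one_x : (1 : LB r i0).x = 0 := rfl

theorem inv_u (a : LB r i0) (i : Option (Fin r)) :
    (a⁻¹).u i = fun g => a.u i (g + a.x) := rfl
theorem inv_z (a : LB r i0) (i : Option (Fin r)) (j : ZMod 2) :
    (a⁻¹).z i j = a.z i (j + a.x (cc r i0 i)) +
        bb r i0 i (fun g => a.u i (g + a.x)) (fun g => a.u i (g + a.x)) j := rfl
theorem inv_x (a : LB r i0) : (a⁻¹).x = a.x := rfl

theorem two_self (a : ZMod 2) : a + a = 0 := CharTwo.add_self_eq_zero a

theorem EE_self (x : EE r) : x + x = 0 := by
  ext k; exact two_self _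

instance : Group (LB r i0) :=
  Group.ofLeftAxioms
    (by
      intro a b c
      ext i g
      · simp only [mul_u, mul_x]
        rw [add_assoc, ← add_assoc g a.x b.x]
      · simp only [mul_z, mul_u, mul_x]
        rw [bb_add_left, bb_add_right, bb_shift, Pi.add_apply, add_assoc g]
        have h : (fun g => c.u i (g + (a.x + b.x))) = (fun g => c.u i (g + a.x + b.x)) := by
          funext g; rw [add_assoc]
        rw [h]
        ring
      · simp only [mul_x, add_assoc])
    (by
      intro a
      ext i g
      · simp [mul_u, one_u, one_x]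
      · simp [mul_z, one_z, one_x, one_u, bb_zero_left]
      · simp [mul_x, one_x])
    (by
      intro a
      ext i g
      · simp only [mul_u, inv_u, inv_x, one_u]
        exact two_self _
      · simp only [mul_z, inv_z, inv_x, one_z, inv_u]
        have : ∀ p q : ZMod 2, p + q + p + q = 0 := by decide
        exact this _ _
      · simp only [mul_x, inv_x, one_x]
        rw [EE_self])


/-- The projection to the top group, written multiplicatively. -/
def prX : LB r i0 →* Multiplicative (EE r) where
  toFun a := Multiplicative.ofAdd a.x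
  map_one' := rfl
  map_mul' _ _ := rfl

/-- The parity of the `i`-th component. -/
def par (i : Option (Fin r)) : LB r i0 →* Multiplicative (ZMod 2) where
  toFun a := Multiplicative.ofAdd (∑ g : EE r, a.u i g)
  map_one' := by simp [one_u]
  map_mul' a b := by
    rw [← ofAdd_add]
    congr 1
    simp only [mul_u]
    rw [Finset.sum_add_distrib]
    congr 1
    exact Equiv.sum_comp (Equiv.addRight a.x) (fun g => b.u i g)

/-- The central elements. -/
def cen (i : Option (Fin r)) : LB r i0 where
  u := fun _ _ => 0
  z := fun i' _ => if i' = i then 1 else 0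
  x := 0

/-- If `v` is `x`-invariant and `x ≠ dd r i`, the quadratic form vanishes. -/
theorem bb_self_eq_zero (i : Option (Fin r)) (v : EE r → ZMod 2) (x : EE r)
    (hv : ∀ g, v (g + x) = v g) (hx0 : x ≠ 0) (hx : x ≠ dd r i) (j : ZMod 2) :
    bb r i0 i v v j = 0 := by
  have key : ∃ t : EE r, t ≠ 0 ∧ t (cc r i0 i) = 0 ∧
      ∀ g, v (g + t) * v (g + t + dd r i) = v g * v (g + dd r i) := by
    have h01 : x (cc r i0 i) = 0 ∨ x (cc r i0 i) = 1 := by
      generalize x (cc r i0 i) = p
      revert p; decide
    rcases h01 with h | h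
    · refine ⟨x, hx0, h, fun g => ?_⟩
      rw [add_right_comm, hv, hv]
    · refine ⟨x + dd r i, ?_, ?_, fun g => ?_⟩
      · intro h0
        apply hx
        have := congrArg (fun t => t + dd r i) h0
        simpa [add_assoc, EE_self] using this
      · rw [Pi.add_apply, h, dd_cc]; decide
      · have e1 : g + (x + dd r i) = (g + dd r i) + x := by abel
        have e2 : g + (x + dd r i) + dd r i = g + x := by
          rw [add_assoc, add_assoc x, EE_self, add_zero]
        rw [e2, e1, hv, hv, mul_comm]
  obtain ⟨t, ht0, htc, ht⟩ := key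
  unfold bb
  refine Finset.sum_involution (fun g _ => g + t) ?_ ?_ ?_ ?_
  · intro g _
    simp only [Pi.add_apply, htc, add_zero]
    rw [ht]
    exact two_self _
  · intro g _ _ h
    exact ht0 (by simpa using h)
  · intro g _; exact Finset.mem_univ _
  · intro g _
    simp only [add_assoc, EE_self, add_zero]

theorem bb_self_dd (i : Option (Fin r)) (u : EE r → ZMod 2) (j : ZMod 2) :
    bb r i0 i (fun g => u g + u (g + dd r i)) (fun g => u g + u (g + dd r i)) j =
      ∑ g : EE r, u g := by
  unfold bb
  have h1 : ∀ g : EE r, (if g (cc r i0 i) = j then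
      (u g + u (g + dd r i)) * (u (g + dd r i) + u (g + dd r i + dd r i)) else 0) =
      (if g (cc r i0 i) = j then u g else 0) +
        (if g (cc r i0 i) = j then u (g + dd r i) else 0) := by
    intro g
    have e : g + dd r i + dd r i = g := by rw [add_assoc, EE_self, add_zero]
    rw [e]
    have : ∀ p q : ZMod 2, (p + q) * (q + p) = p + q := by decide
    rw [this]
    split_ifs <;> simp
  rw [Finset.sum_congr rfl fun g _ => h1 g, Finset.sum_add_distrib]
  have h2 : ∑ g : EE r, (if g (cc r i0 i) = j then u (g + dd r i) else 0) =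
      ∑ g : EE r, (if g (cc r i0 i) = j then 0 else u g) := by
    rw [← Equiv.sum_comp (Equiv.addRight (dd r i))
      (fun g => if g (cc r i0 i) = j then 0 else u g)]
    refine Finset.sum_congr rfl fun g _ => ?_
    simp only [Equiv.coe_addRight, Pi.add_apply, dd_cc]
    have : ∀ p q : ZMod 2, p + 1 = q ↔ ¬ p = q := by decide
    simp only [this]
    split_ifs <;> simp_all
  rw [h2, ← Finset.sum_add_distrib]
  refine Finset.sum_congr rfl fun g _ => ?_
  split_ifs <;> simp

theorem sq_u (a : LB r i0) (i : Option (Fin r)) :
    (a * a).u i = fun g => a.u i g + a.u i (g + a.x) := rfl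

theorem four (a : LB r i0) : a ^ 4 =
    { u := fun _ _ => 0
      z := fun i _ => if a.x = dd r i then (∑ g : EE r, a.u i g) else 0
      x := 0 } := by
  have h4 : a ^ 4 = (a * a) * (a * a) := by
    rw [show (4 : ℕ) = 2 + 2 from rfl, pow_add, pow_two]
  rw [h4]
  have hx : (a * a).x = 0 := by rw [mul_x, EE_self]
  ext i g
  · rw [mul_u]
    simp only [hx, add_zero]
    exact two_self _
  · rw [mul_z]
    simp only [hx, Pi.zero_apply, add_zero]
    rw [two_self, zero_add]
    simp only [sq_u]
    by_cases hd : a.x = dd r i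
    · rw [if_pos hd, hd]
      exact bb_self_dd i _ _
    · rw [if_neg hd]
      by_cases h0 : a.x = 0
      · simp only [h0, add_zero, two_self]
        exact bb_zero_left i _ _
      · refine bb_self_eq_zero i _ a.x ?_ h0 hd _
        intro g
        rw [add_assoc g, EE_self, add_zero, add_comm]
  · rw [mul_x, hx, add_zero]

end Pool.Agent.Hhelper10.FB
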