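import Mathlib
import Pool.Agent.Hhelper10.FBGroup

set_option autoImplicit false

namespace Pool.Agent.Hhelper10.FB

open scoped commutatorElement

variable {r : ℕ} {i0 : Fin r}

theorem four_eq_one (a : LB r i0) (h : ∀ i, a.x ≠ dd r i) : a ^ 4 = 1 := by
  rw [four]
  ext i g
  · rfl
  · simp [h i, one_z]
  · rfl

theorem dd_injective (hr : 2 ≤ r) : Function.Injective (dd r) := by
  have hne : ∀ k : Fin r, ∃ k' : Fin r, k' ≠ k := by
    intro k
    have : Nontrivial (Fin r) := Fin.nontrivial_iff_two_le.mpr hr
    exact exists_ne k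
  intro i i' h
  cases i with
  | none =>
    cases i' with
    | none => rfl
    | some k =>
      obtain ⟨k', hk'⟩ := hne k
      have := congrFun h k'
      simp [dd, hk'] at this
  | some k =>
    cases i' with
    | none =>
      obtain ⟨k', hk'⟩ := hne k
      have := congrFun h k'
      simp [dd, hk'] at this
    | some k' =>
      have := congrFun h k
      by_cases hkk : k = k'
      · rw [hkk]
      · simp [dd, hkk] at this

/-- The bad elements. -/
def xel (r : ℕ) (i0 : Fin r) (k : Fin r) : LB r i0 where
  u := fun i g => if (i = some k ∨ (i = none ∧ k = i0)) ∧ g = 0 then 1 else 0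
  z := fun _ _ => 0
  x := dd r (some k)

theorem four_of_par (hr : 2 ≤ r) (a : LB r i0) (i : Option (Fin r)) (hx : a.x = dd r i)
    (hp : ∑ g : EE r, a.u i g = 1) : a ^ 4 = cen i := by
  rw [four]
  ext i' g
  · rfl
  · simp only [cen, hx]
    by_cases h : i' = i
    · rw [h, if_pos rfl, if_pos rfl, hp]
    · rw [if_neg h, if_neg]
      intro h'
      exact h (dd_injective hr h').symm
  · rfl

theorem xel_four (hr : 2 ≤ r) (k : Fin r) : (xel r i0 k) ^ 4 = cen (some k) := by
  refine four_of_par hr _ _ rfl ?_
  simp [xel]

theorem xprod_four (hr : 2 ≤ r) :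
    ((List.ofFn (xel r i0)).prod) ^ 4 = cen none := by
  refine four_of_par hr _ _ ?_ ?_
  · have h1 : prX ((List.ofFn (xel r i0)).prod) =
        (List.ofFn (fun k => prX (xel r i0 k))).prod := by
      rw [map_list_prod, List.map_ofFn]; rfl
    rw [List.prod_ofFn] at h1
    have h2 : ((List.ofFn (xel r i0)).prod).x =
        Multiplicative.toAdd (∏ k : Fin r, prX (xel r i0 k)) := by
      rw [← h1]; rfl
    rw [h2, toAdd_prod]
    funext t
    rw [Finset.sum_apply]
    have : ∀ k : Fin r, (Multiplicative.toAdd (prX (xel r i0 k))) t = if t = k then 1 else 0 := by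
      intro k
      change dd r (some k) t = _
      simp [dd, Pi.single_apply]
    simp only [this]
    simp [dd]
  · have h1 : par none ((List.ofFn (xel r i0)).prod) =
        (List.ofFn (fun k => par none (xel r i0 k))).prod := by
      rw [map_list_prod, List.map_ofFn]; rfl
    rw [List.prod_ofFn] at h1
    have h2 : ∑ g : EE r, ((List.ofFn (xel r i0)).prod).u none g =
        Multiplicative.toAdd (∏ k : Fin r, par none (xel r i0 k)) := by
      rw [← h1]; rfl
    rw [h2, toAdd_prod]
    have : ∀ k : Fin r, (Multiplicative.toAdd (par none (xel r i0 k))) =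
        if i0 = k then 1 else 0 := by
      intro k
      change ∑ g : EE r, (xel r i0 k).u none g = _
      by_cases hk : i0 = k
      · simp [xel, hk]
      · have hk' : ¬ k = i0 := fun h => hk h.symm
        simp [xel, hk, hk']
    simp only [this]
    simp

theorem cen_mul (i : Option (Fin r)) (a : LB r i0) : cen i * a =
    { u := a.u, z := fun i' j => (if i' = i then 1 else 0) + a.z i' j, x := a.x } := by
  ext i' g
  · simp [mul_u, cen]
  · simp only [mul_z, cen, Pi.zero_apply, add_zero]
    rw [bb_zero_left, add_zero]
  · simp [mul_x, cen]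

theorem cen_sq (i : Option (Fin r)) : (cen i : LB r i0) * cen i = 1 := by
  rw [cen_mul]
  ext i' g
  · rfl
  · simp only [cen, one_z]; exact two_self _
  · rfl

theorem cen_inv (i : Option (Fin r)) : (cen i : LB r i0)⁻¹ = cen i :=
  inv_eq_of_mul_eq_one_left (cen_sq i)

theorem cen_cube (i : Option (Fin r)) : (cen i : LB r i0) ^ 3 = cen i := by
  rw [pow_succ, pow_two, cen_sq, one_mul]

/-- The coefficient group. -/
abbrev WW (r : ℕ) (i0 : Fin r) : Type := LB r i0 → Multiplicative (ZMod 3)

/-- The finite groups showing that the laws are not finitely based. -/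
abbrev LL (r : ℕ) (i0 : Fin r) : Type := WW r i0 ⋊[mulAutArrow] LB r i0

/-- A sign character with values in `ZMod 3`. -/
def sg (a : ZMod 2) : ZMod 3 := if a = 0 then 1 else -1

theorem sg_add_one (a : ZMod 2) : sg (1 + a) = - sg a := by
  revert a; decide

/-- The special vector. -/
def ww (r : ℕ) (i0 : Fin r) : WW r i0 :=
  fun a => Multiplicative.ofAdd (sg (∑ i : Option (Fin r), a.z i 0))

theorem ww_ne_one : ww r i0 ≠ 1 := by
  intro h
  have := congrFun h 1
  simp only [ww, one_z, Finset.sum_const_zero, Pi.one_apply] at this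
  have h2 : sg 0 = 0 := this
  revert h2; decide

theorem mulAutArrow_cen (i : Option (Fin r)) :
    (mulAutArrow (cen i : LB r i0) : MulAut (WW r i0)) (ww r i0) = (ww r i0)⁻¹ := by
  funext a
  have h1 : (mulAutArrow (cen i : LB r i0) : MulAut (WW r i0)) (ww r i0) a =
      ww r i0 ((cen i)⁻¹ * a) := rfl
  rw [h1, cen_inv, cen_mul, Pi.inv_apply]
  simp only [ww]
  rw [← ofAdd_neg, Finset.sum_add_distrib, Finset.sum_ite_eq' Finset.univ i (fun _ => (1 : ZMod 2)),
    if_pos (Finset.mem_univ _), sg_add_one]

/-- Iterated commutator with twelfth powers. -/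
def itc {G : Type} [Group G] (a : G) (l : List G) : G :=
  l.foldl (fun a b => ⁅a, b ^ 12⁆) a

theorem itc_nil {G : Type} [Group G] (a : G) : itc a [] = a := rfl

theorem itc_cons {G : Type} [Group G] (a b : G) (l : List G) :
    itc a (b :: l) = itc ⁅a, b ^ 12⁆ l := rfl

theorem itc_one {G : Type} [Group G] (l : List G) : itc 1 l = 1 := by
  induction l with
  | nil => rfl
  | cons b l ih => rw [itc_cons, commutatorElement_one_left, ih]

theorem itc_eq_one {G : Type} [Group G] (l : List G) (b : G) (hb : b ∈ l) (h : b ^ 12 = 1) :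
    ∀ a : G, itc a l = 1 := by
  induction l with
  | nil => simp at hb
  | cons c l ih =>
    intro a
    rw [itc_cons]
    rcases List.mem_cons.mp hb with h' | h'
    · subst h'
      rw [h, commutatorElement_one_right, itc_one]
    · exact ih h' _

theorem map_itc {G G' : Type} [Group G] [Group G'] (φ : G →* G') (l : List G) :
    ∀ a : G, φ (itc a l) = itc (φ a) (l.map φ) := by
  induction l with
  | nil => intro a; rfl
  | cons b l ih =>
    intro a
    rw [itc_cons, ih, List.map_cons, itc_cons, map_commutatorElement, map_pow]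

/-- In `LL`, twelfth powers of certain elements are central in `LB`, and the
iterated commutator does not vanish. -/
theorem itc_ww_ne_one (l : List (LL r i0))
    (hl : ∀ b ∈ l, ∃ i, b ^ 12 = SemidirectProduct.inr (cen i)) :
    ∀ a : LL r i0, (a = SemidirectProduct.inl (ww r i0) ∨ a = SemidirectProduct.inl (ww r i0)⁻¹) →
      itc a l ≠ 1 := by
  induction l with
  | nil =>
    intro a ha
    rw [itc_nil]
    rcases ha with h | h
    · rw [h]
      intro h1
      exact ww_ne_one (SemidirectProduct.inl_injective (h1.trans (map_one _).symm))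
    · rw [h]
      intro h1
      have h2 := SemidirectProduct.inl_injective (h1.trans (map_one _).symm)
      exact ww_ne_one (inv_eq_one.mp h2)
  | cons b l ih =>
    intro a ha
    rw [itc_cons]
    apply ih (fun c hc => hl c (List.mem_cons_of_mem _ hc))
    obtain ⟨i, hi⟩ := hl b List.mem_cons_self
    rw [hi]
    have key : ∀ w : WW r i0,
        (mulAutArrow (cen i : LB r i0) : MulAut (WW r i0)) w = w⁻¹ →
        ⁅(SemidirectProduct.inl w : LL r i0), (SemidirectProduct.inr (cen i) : LL r i0)⁆ =
          SemidirectProduct.inl w⁻¹ := by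
      intro w hw
      rw [commutatorElement_def]
      have e1 : (SemidirectProduct.inr (cen i) : LL r i0) * (SemidirectProduct.inl w)⁻¹ *
          (SemidirectProduct.inr (cen i))⁻¹ = SemidirectProduct.inl w := by
        rw [← map_inv SemidirectProduct.inl, ← map_inv SemidirectProduct.inr,
          ← SemidirectProduct.inl_aut, map_inv, hw, inv_inv]
      have e2 : (SemidirectProduct.inl w : LL r i0) * SemidirectProduct.inr (cen i) *
          (SemidirectProduct.inl w)⁻¹ * (SemidirectProduct.inr (cen i))⁻¹ =
          SemidirectProduct.inl w * (SemidirectProduct.inr (cen i) *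
          (SemidirectProduct.inl w)⁻¹ * (SemidirectProduct.inr (cen i))⁻¹) := by group
      rw [e2, e1, ← map_mul]
      congr 1
      funext t
      simp only [Pi.mul_apply, Pi.inv_apply]
      generalize w t = p
      revert p; decide
    rcases ha with h | h
    · rw [h]; right; exact key _ (mulAutArrow_cen i)
    · rw [h]; left
      rw [key, inv_inv]
      rw [map_inv, mulAutArrow_cen]

end Pool.Agent.Hhelper10.FB
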