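import Mathlib
import Pool.Agent.Hhelper10.FBViolate

set_option autoImplicit false

namespace Pool.Agent.Hhelper10.FB

open scoped commutatorElement

/-- The two-element group, multiplicatively. -/
abbrev C2 : Type := Multiplicative (ZMod 2)

theorem C2_gen : (Multiplicative.ofAdd (1 : ZMod 2) : C2) ≠ 1 := by decide

theorem C2_ne_one {a b : C2} (ha : a ≠ 1) (hb : b ≠ 1) : a = b := by
  revert a b; decide

/-- Parity homomorphism. -/
def eps0 : FreeGroup ℕ →* C2 :=
  FreeGroup.lift (fun i => if i % 2 = 0 then 1 else Multiplicative.ofAdd 1)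

/-- Normal closure of the twelfth powers of the elements of the kernel. -/
def VV (ε : FreeGroup ℕ →* C2) : Subgroup (FreeGroup ℕ) :=
  Subgroup.normalClosure {z | ∃ y, ε y = 1 ∧ y ^ 12 = z}

instance (ε : FreeGroup ℕ →* C2) : (VV ε).Normal := by unfold VV; infer_instance

theorem pow_mem_VV (ε : FreeGroup ℕ →* C2) (y : FreeGroup ℕ) (h : ε y = 1) : y ^ 12 ∈ VV ε :=
  Subgroup.subset_normalClosure ⟨y, h, rfl⟩

theorem VV_le (ε : FreeGroup ℕ →* C2) (N : Subgroup (FreeGroup ℕ)) [N.Normal]
    (h : ∀ y, ε y = 1 → y ^ 12 ∈ N) : VV ε ≤ N := by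
  apply Subgroup.normalClosure_le_normal
  rintro z ⟨y, hy, rfl⟩
  exact h y hy

/-- The big group. -/
abbrev GG : Type := FreeGroup ℕ ⧸ VV eps0

/-- The homomorphism onto the two-element group. -/
def epsG : GG →* C2 := QuotientGroup.lift (VV eps0) eps0 (by
  intro a ha
  have : VV eps0 ≤ eps0.ker := VV_le _ _ (by
    intro y hy
    rw [MonoidHom.mem_ker, map_pow, hy, one_pow])
  exact this ha)

theorem epsG_mk (y : FreeGroup ℕ) : epsG (QuotientGroup.mk' (VV eps0) y) = eps0 y := rfl

theorem GG_pow (g : GG) (h : epsG g = 1) : g ^ 12 = 1 := by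
  obtain ⟨y, rfl⟩ := QuotientGroup.mk'_surjective (VV eps0) g
  rw [epsG_mk] at h
  rw [← map_pow]
  exact (QuotientGroup.eq_one_iff _).mpr (pow_mem_VV _ _ h)

theorem mk_eq_one_iff (y : FreeGroup ℕ) : QuotientGroup.mk' (VV eps0) y = 1 ↔ y ∈ VV eps0 :=
  QuotientGroup.eq_one_iff y

theorem law_mem (w : FreeGroup ℕ) (hw : ∀ φ : FreeGroup ℕ →* GG, φ w = 1)
    (ε : FreeGroup ℕ →* C2) : w ∈ VV ε := by
  classical
  obtain ⟨p0, hp0⟩ : ∃ p0 : FreeGroup ℕ, ε = 1 ∨ ε p0 ≠ 1 := by
    by_cases h : ε = 1
    · exact ⟨1, Or.inl h⟩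
    · by_contra hcon
      push Not at hcon
      apply h
      refine FreeGroup.ext_hom _ _ (fun i => ?_)
      exact (hcon _).2
  let ψ : FreeGroup ℕ →* FreeGroup ℕ :=
    FreeGroup.lift (fun i => FreeGroup.of (2 * i + (if ε (FreeGroup.of i) = 1 then 0 else 1)))
  let ρ : FreeGroup ℕ →* FreeGroup ℕ :=
    FreeGroup.lift (fun m => if m % 2 = 0 then
        (if ε (FreeGroup.of (m / 2)) = 1 then FreeGroup.of (m / 2) else 1)
      else (if ε (FreeGroup.of (m / 2)) = 1 then p0 else FreeGroup.of (m / 2)))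
  have hρψ : ρ.comp ψ = MonoidHom.id _ := by
    ext i
    simp only [ρ, ψ, MonoidHom.comp_apply, FreeGroup.lift_apply_of, MonoidHom.id_apply]
    by_cases h : ε (FreeGroup.of i) = 1
    · have e1 : (2 * i + 0) % 2 = 0 := by omega
      have e2 : (2 * i + 0) / 2 = i := by omega
      rw [if_pos h, if_pos e1, e2, if_pos h]
    · have e1 : ¬ (2 * i + 1) % 2 = 0 := by omega
      have e2 : (2 * i + 1) / 2 = i := by omega
      rw [if_neg h, if_neg e1, e2, if_neg h]
  have hρ : ∀ y, eps0 y = 1 → ε (ρ y) = 1 := by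
    rcases hp0 with h | h
    · intro y _; rw [h]; rfl
    · have : ε.comp ρ = eps0 := by
        refine FreeGroup.ext_hom _ _ (fun m => ?_)
        simp only [ρ, eps0, MonoidHom.comp_apply, FreeGroup.lift_apply_of]
        by_cases hm : m % 2 = 0
        · rw [if_pos hm, if_pos hm]
          split_ifs with h1
          · exact h1
          · exact map_one _
        · rw [if_neg hm, if_neg hm]
          split_ifs with h1
          · exact C2_ne_one h C2_gen
          · exact C2_ne_one h1 C2_gen
      intro y hy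
      rw [← MonoidHom.comp_apply, this, hy]
  have h1 : ψ w ∈ VV eps0 := by
    rw [← mk_eq_one_iff]
    exact hw ((QuotientGroup.mk' (VV eps0)).comp ψ)
  have h2 : VV eps0 ≤ (VV ε).comap ρ := by
    apply VV_le
    intro y hy
    rw [Subgroup.mem_comap, map_pow]
    exact pow_mem_VV _ _ (hρ y hy)
  have h3 := h2 h1
  rw [Subgroup.mem_comap, ← MonoidHom.comp_apply, hρψ] at h3
  exact h3

/-- Verbal subgroup generated by a finite set. -/
abbrev verb (S : Finset (FreeGroup ℕ)) : Subgroup (FreeGroup ℕ) :=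
  Subgroup.closure {v : FreeGroup ℕ | ∃ s ∈ S, ∃ ψ : FreeGroup ℕ →* FreeGroup ℕ, ψ s = v}

instance verb_normal (S : Finset (FreeGroup ℕ)) : (verb S).Normal := by
  constructor
  intro n hn g
  induction hn using Subgroup.closure_induction with
  | mem x hx =>
    obtain ⟨s, hs, ψ, rfl⟩ := hx
    exact Subgroup.subset_closure ⟨s, hs, (MulAut.conj g).toMonoidHom.comp ψ, rfl⟩
  | one => simp
  | mul x y _ _ hx hy =>
    have : g * (x * y) * g⁻¹ = (g * x * g⁻¹) * (g * y * g⁻¹) := by group
    rw [this]; exact mul_mem hx hy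
  | inv x _ hx =>
    have : g * x⁻¹ * g⁻¹ = (g * x * g⁻¹)⁻¹ := by group
    rw [this]; exact inv_mem hx

/-- The laws of the index two subgroup are finitely based. -/
theorem HH_based : ∃ S : Finset (FreeGroup ℕ),
    (∀ s ∈ S, ∀ φ : FreeGroup ℕ →* epsG.ker, φ s = 1) ∧
    ∀ w : FreeGroup ℕ, (∀ φ : FreeGroup ℕ →* epsG.ker, φ w = 1) → w ∈ verb S := by
  refine ⟨{FreeGroup.of 0 ^ 12}, ?_, ?_⟩
  · intro s hs φ
    rw [Finset.mem_singleton] at hs
    subst hs
    rw [map_pow]
    apply Subtype.ext
    rw [Subgroup.coe_pow]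
    exact GG_pow _ (φ (FreeGroup.of 0)).2
  · intro w hw
    let σ : FreeGroup ℕ →* FreeGroup ℕ := FreeGroup.lift (fun i => FreeGroup.of (2 * i))
    let ρ : FreeGroup ℕ →* FreeGroup ℕ :=
      FreeGroup.lift (fun m => if m % 2 = 0 then FreeGroup.of (m / 2) else 1)
    have hρσ : ρ.comp σ = MonoidHom.id _ := by
      ext i
      simp only [ρ, σ, MonoidHom.comp_apply, FreeGroup.lift_apply_of, MonoidHom.id_apply]
      have e1 : (2 * i) % 2 = 0 := by omega
      have e2 : (2 * i) / 2 = i := by omega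
      rw [if_pos e1, e2]
    have hσ : ∀ y, eps0 (σ y) = 1 := by
      intro y
      have : eps0.comp σ = 1 := by
        ext i
        simp only [σ, eps0, MonoidHom.comp_apply, FreeGroup.lift_apply_of, MonoidHom.one_apply]
        have e1 : (2 * i) % 2 = 0 := by omega
        rw [if_pos e1]
      rw [← MonoidHom.comp_apply, this]; rfl
    let φ : FreeGroup ℕ →* epsG.ker :=
      ((QuotientGroup.mk' (VV eps0)).comp σ).codRestrict epsG.ker (by
        intro y
        rw [MonoidHom.mem_ker]
        exact hσ y)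
    have h1 : σ w ∈ VV eps0 := by
      rw [← mk_eq_one_iff]
      have := congrArg Subtype.val (hw φ)
      exact this
    have h2 : VV eps0 ≤ (verb {FreeGroup.of 0 ^ 12}).comap ρ := by
      apply VV_le
      intro y _
      rw [Subgroup.mem_comap]
      apply Subgroup.subset_closure
      refine ⟨_, Finset.mem_singleton_self _, FreeGroup.lift (fun _ => ρ y), ?_⟩
      rw [map_pow, map_pow, FreeGroup.lift_apply_of]
    have h3 := h2 h1
    rw [Subgroup.mem_comap, ← MonoidHom.comp_apply, hρσ] at h3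
    exact h3

/-- The law with `r + 1` variables. -/
def lawW (r : ℕ) : FreeGroup ℕ :=
  itc (FreeGroup.of 0) (List.ofFn (fun k : Fin r => FreeGroup.of ((k : ℕ) + 1)) ++
    [(List.ofFn (fun k : Fin r => FreeGroup.of ((k : ℕ) + 1))).prod])

theorem lawW_law (r : ℕ) (he : Even r) (φ : FreeGroup ℕ →* GG) : φ (lawW r) = 1 := by
  unfold lawW
  rw [map_itc]
  by_cases h : ∃ k : Fin r, epsG (φ (FreeGroup.of ((k : ℕ) + 1))) = 1
  · obtain ⟨k, hk⟩ := h
    apply itc_eq_one _ (φ (FreeGroup.of ((k : ℕ) + 1)))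
    · apply List.mem_map_of_mem
      rw [List.mem_append]
      left
      rw [List.mem_ofFn]
      exact ⟨k, rfl⟩
    · exact GG_pow _ hk
  · push Not at h
    apply itc_eq_one _ (φ (List.ofFn (fun k : Fin r => FreeGroup.of ((k : ℕ) + 1))).prod)
    · apply List.mem_map_of_mem
      rw [List.mem_append]
      right
      exact List.mem_singleton_self _
    · apply GG_pow
      rw [map_list_prod, map_list_prod, List.map_ofFn, List.map_ofFn, List.prod_ofFn]
      have : ∀ k : Fin r, (epsG ∘ φ ∘ fun k : Fin r => FreeGroup.of ((k : ℕ) + 1)) k =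
          Multiplicative.ofAdd 1 := by
        intro k
        exact C2_ne_one (h k) (by decide)
      rw [Finset.prod_congr rfl (fun k _ => this k), Finset.prod_const, Finset.card_univ,
        Fintype.card_fin]
      obtain ⟨m, rfl⟩ := he
      rw [← two_mul, pow_mul]
      have : (Multiplicative.ofAdd (1 : ZMod 2)) ^ 2 = 1 := by decide
      rw [this, one_pow]

/-- The violating assignment. -/
def viol (r : ℕ) (i0 : Fin r) : FreeGroup ℕ →* LL r i0 :=
  FreeGroup.lift (fun m => match m with
    | 0 => SemidirectProduct.inl (ww r i0)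
    | k + 1 => if h : k < r then SemidirectProduct.inr (xel r i0 ⟨k, h⟩) else 1)

theorem viol_lawW (r : ℕ) (hr : 2 ≤ r) (i0 : Fin r) : viol r i0 (lawW r) ≠ 1 := by
  unfold lawW
  rw [map_itc]
  have hv : ∀ k : Fin r, viol r i0 (FreeGroup.of ((k : ℕ) + 1)) =
      SemidirectProduct.inr (xel r i0 k) := by
    intro k
    simp [viol, FreeGroup.lift_apply_of]
  have hprod : viol r i0 (List.ofFn (fun k : Fin r => FreeGroup.of ((k : ℕ) + 1))).prod =
      SemidirectProduct.inr (List.ofFn (xel r i0)).prod := by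
    rw [map_list_prod, map_list_prod, List.map_ofFn, List.map_ofFn]
    congr 2
    funext k
    exact hv k
  apply itc_ww_ne_one
  · intro b hb
    rw [List.mem_map] at hb
    obtain ⟨a, ha, rfl⟩ := hb
    rw [List.mem_append] at ha
    rcases ha with ha | ha
    · rw [List.mem_ofFn] at ha
      obtain ⟨k, rfl⟩ := ha
      refine ⟨some k, ?_⟩
      rw [hv, ← map_pow]
      congr 1
      rw [show (12 : ℕ) = 4 * 3 from rfl, pow_mul, xel_four hr, cen_cube]
    · rw [List.mem_singleton] at ha
      subst ha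
      refine ⟨none, ?_⟩
      rw [hprod, ← map_pow]
      congr 1
      rw [show (12 : ℕ) = 4 * 3 from rfl, pow_mul, xprod_four hr, cen_cube]
  · left
    simp [viol, FreeGroup.lift_apply_of]

/-- Elements not lying over distinguished vectors have exponent 12. -/
theorem LL_pow {r : ℕ} {i0 : Fin r} (y : LL r i0) (h : ∀ i, y.right.x ≠ dd r i) :
    y ^ 12 = 1 := by
  have h1 : (y ^ 4).right = 1 := by
    have : (y ^ 4).right = y.right ^ 4 := by
      rw [← SemidirectProduct.rightHom_eq_right, map_pow]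
    rw [this]
    exact four_eq_one _ h
  have h2 : y ^ 4 = SemidirectProduct.inl (y ^ 4).left := by
    have := SemidirectProduct.inl_left_mul_inr_right (y ^ 4)
    rw [h1, map_one, mul_one] at this
    exact this.symm
  rw [show (12 : ℕ) = 4 * 3 from rfl, pow_mul, h2, ← map_pow]
  have h3 : (y ^ 4).left ^ 3 = 1 := by
    funext t
    rw [Pi.pow_apply, Pi.one_apply]
    generalize (y ^ 4).left t = p
    revert p; decide
  rw [h3, map_one]

/-- Truncation of variables. -/
def trunc (n : ℕ) : FreeGroup ℕ →* FreeGroup ℕ :=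
  FreeGroup.lift (fun i => if i < n then FreeGroup.of i else 1)

theorem trunc_eventually (s : FreeGroup ℕ) : ∃ n, ∀ m, n ≤ m → trunc m s = s := by
  induction s using FreeGroup.induction_on with
  | C1 => exact ⟨0, fun m _ => map_one _⟩
  | of i =>
    refine ⟨i + 1, fun m hm => ?_⟩
    simp only [trunc, FreeGroup.lift_apply_of]
    rw [if_pos (by omega)]
  | inv_of i h =>
    obtain ⟨n, hn⟩ := h
    exact ⟨n, fun m hm => by rw [map_inv, hn m hm]⟩
  | mul x y hx hy =>
    obtain ⟨n, hn⟩ := hx
    obtain ⟨n', hn'⟩ := hy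
    refine ⟨max n n', fun m hm => ?_⟩
    rw [map_mul, hn m (le_trans (le_max_left _ _) hm), hn' m (le_trans (le_max_right _ _) hm)]

theorem trunc_finset (S : Finset (FreeGroup ℕ)) : ∃ n, ∀ s ∈ S, trunc n s = s := by
  classical
  have : ∃ n, ∀ m, n ≤ m → ∀ s ∈ S, trunc m s = s := by
    induction S using Finset.induction_on with
    | empty => exact ⟨0, fun m _ s hs => by simp at hs⟩
    | insert a S _ ih =>
      obtain ⟨n, hn⟩ := ih
      obtain ⟨n', hn'⟩ := trunc_eventually a
      refine ⟨max n n', fun m hm s hs => ?_⟩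
      rcases Finset.mem_insert.mp hs with h | h
      · rw [h]; exact hn' m (le_trans (le_max_right _ _) hm)
      · exact hn m (le_trans (le_max_left _ _) hm) s h
  obtain ⟨n, hn⟩ := this
  exact ⟨n, hn n le_rfl⟩

/-- The sum of all coordinates except the `k`-th. -/
def alph (r : ℕ) (k : Fin r) : EE r →+ ZMod 2 where
  toFun x := ∑ t ∈ Finset.univ.erase k, x t
  map_zero' := by simp
  map_add' x y := by simp [Finset.sum_add_distrib]

theorem alph_dd (r : ℕ) (k : Fin r) (he : Even r) (i : Option (Fin r)) (hi : i ≠ some k) :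
    alph r k (dd r i) = 1 := by
  cases i with
  | none =>
    simp only [alph, dd, AddMonoidHom.coe_mk, ZeroHom.coe_mk, Finset.sum_const, nsmul_eq_mul,
      mul_one, Finset.card_erase_of_mem (Finset.mem_univ k), Finset.card_univ, Fintype.card_fin]
    obtain ⟨m, rfl⟩ := he
    have hm : 1 ≤ m := by
      rcases m with _ | m
      · exact absurd k.2 (by omega)
      · omega
    obtain ⟨m', rfl⟩ : ∃ m', m = m' + 1 := ⟨m - 1, by omega⟩
    have : m' + 1 + (m' + 1) - 1 = 2 * m' + 1 := by omega
    rw [this]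
    push_cast
    have h2 : (2 : ZMod 2) = 0 := by decide
    rw [h2, zero_mul, zero_add]
  | some k' =>
    have hne : k' ≠ k := fun h => hi (by rw [h])
    simp only [alph, dd, AddMonoidHom.coe_mk, ZeroHom.coe_mk]
    rw [Finset.sum_eq_single k']
    · simp
    · intro t _ ht
      simp [ht]
    · intro h
      exact absurd (Finset.mem_erase.mpr ⟨hne, Finset.mem_univ _⟩) h

theorem exists_missing (r n : ℕ) (h : n < r) (f : Fin n → EE r) :
    ∃ k : Fin r, dd r (some k) ∉ Submodule.span (ZMod 2) (Set.range f) := by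
  by_contra hcon
  push Not at hcon
  have htop : Submodule.span (ZMod 2) (Set.range f) = ⊤ := by
    rw [eq_top_iff]
    intro x _
    have : x = ∑ k : Fin r, x k • dd r (some k) := by
      funext t
      simp [dd, Finset.sum_apply, Pi.single_apply]
    rw [this]
    exact Submodule.sum_mem _ (fun k _ => Submodule.smul_mem _ _ (hcon k))
  have h1 := finrank_range_le_card (R := ZMod 2) f
  rw [Set.finrank, htop, finrank_top, Module.finrank_pi, Fintype.card_fin, Fintype.card_fin] at h1
  omega

/-- Every law of `GG` in fewer than `r` variables holds in `LL r i0`. -/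
theorem LL_law (r n : ℕ) (hn : n < r) (he : Even r) (i0 : Fin r) (s : FreeGroup ℕ)
    (hs : ∀ φ : FreeGroup ℕ →* GG, φ s = 1) (ht : trunc n s = s)
    (φ : FreeGroup ℕ →* LL r i0) : φ s = 1 := by
  let φ' : FreeGroup ℕ →* LL r i0 := φ.comp (trunc n)
  have hφ : φ s = φ' s := by
    simp only [φ', MonoidHom.comp_apply, ht]
  let π : FreeGroup ℕ →* Multiplicative (EE r) :=
    (prX.comp SemidirectProduct.rightHom).comp φ'
  obtain ⟨k, hk⟩ := exists_missing r n hn
    (fun t : Fin n => Multiplicative.toAdd (π (FreeGroup.of (t : ℕ))))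
  set Sp := Submodule.span (ZMod 2) (Set.range
    (fun t : Fin n => Multiplicative.toAdd (π (FreeGroup.of (t : ℕ))))) with hSp
  have hπ : ∀ y, Multiplicative.toAdd (π y) ∈ Sp := by
    intro y
    induction y using FreeGroup.induction_on with
    | C1 => rw [map_one]; exact Sp.zero_mem
    | of i =>
      by_cases hi : i < n
      · exact Submodule.subset_span ⟨⟨i, hi⟩, rfl⟩
      · have : π (FreeGroup.of i) = 1 := by
          simp only [π, φ', MonoidHom.comp_apply, trunc, FreeGroup.lift_apply_of]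
          rw [if_neg hi, map_one, map_one, map_one]
        rw [this]; exact Sp.zero_mem
    | inv_of i h => rw [map_inv, toAdd_inv]; exact Sp.neg_mem h
    | mul x y hx hy => rw [map_mul, toAdd_mul]; exact Sp.add_mem hx hy
  let ε : FreeGroup ℕ →* C2 := (AddMonoidHom.toMultiplicative (alph r k)).comp π
  have hker : ∀ y, ε y = 1 → φ' y ^ 12 = 1 := by
    intro y hy
    apply LL_pow
    intro i hi
    have hxy : Multiplicative.toAdd (π y) = (φ' y).right.x := rfl
    by_cases hik : i = some k
    · apply hk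
      rw [← hik, ← hi, ← hxy]
      exact hπ y
    · have h1 : alph r k (Multiplicative.toAdd (π y)) = 0 := hy
      rw [hxy, hi, alph_dd r k he i hik] at h1
      exact absurd h1 (by decide)
  have hmem : s ∈ VV ε := law_mem s hs ε
  have hle : VV ε ≤ φ'.ker := by
    apply VV_le
    intro y hy
    rw [MonoidHom.mem_ker, map_pow]
    exact hker y hy
  rw [hφ]
  exact hle hmem

theorem GG_not_based : ¬ ∃ S : Finset (FreeGroup ℕ),
    (∀ s ∈ S, ∀ φ : FreeGroup ℕ →* GG, φ s = 1) ∧
    ∀ w : FreeGroup ℕ, (∀ φ : FreeGroup ℕ →* GG, φ w = 1) → w ∈ verb S := by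
  rintro ⟨S, hS, hbase⟩
  obtain ⟨n, hn⟩ := trunc_finset S
  let r := 2 * (n + 1)
  have hr : 2 ≤ r := by omega
  have he : Even r := even_two_mul _
  have hnr : n < r := by omega
  let i0 : Fin r := ⟨0, by omega⟩
  have h1 : lawW r ∈ verb S := hbase _ (fun φ => lawW_law r he φ)
  have h2 : verb S ≤ (viol r i0).ker := by
    rw [Subgroup.closure_le]
    rintro v ⟨s, hs, ψ, rfl⟩
    change viol r i0 (ψ s) = 1
    exact LL_law r n hnr he i0 s (hS s hs) (hn s hs) ((viol r i0).comp ψ)
  exact viol_lawW r hr i0 (h2 h1)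

end Pool.Agent.Hhelper10.FB
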